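import Pool.Agent.H51.DM.H

set_option linter.all false

/-!
# Double Markovian correlation models of maximal dimension are smooth (Q1)
-/

namespace Pool.Agent.Results.MP_0a1f67_ag.MaxDimSmooth

open Matrix ContDiff

noncomputable section

/-- The double Markovian correlation model `M₁(G,H)`: the positive definite matrices `Σ` with unit
diagonal such that `(Σ⁻¹)ᵢⱼ = 0` for all non-edges `ij` of `G` and `Σᵢⱼ = 0` for all non-edges `ij`
of `H`. -/
def corrModel {n : ℕ} (G H : SimpleGraph (Fin n)) : Set (Matrix (Fin n) (Fin n) ℝ) :=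
  {S | S.PosDef ∧ (∀ i j, i ≠ j → ¬ G.Adj i j → S⁻¹ i j = 0) ∧
    (∀ i j, i ≠ j → ¬ H.Adj i j → S i j = 0) ∧ ∀ i, S i i = 1}

/-- `S` contains the image of a `C^∞` immersion of a nonempty open subset of `ℝ^d`. -/
def ContainsImmersed {E : Type*} [NormedAddCommGroup E] [NormedSpace ℝ E] (d : ℕ)
    (S : Set E) : Prop :=
  ∃ (B : Set (Fin d → ℝ)) (f : (Fin d → ℝ) → E), IsOpen B ∧ B.Nonempty ∧ ContDiffOn ℝ ∞ f B ∧
    (∀ b ∈ B, Function.Injective (fderiv ℝ f b)) ∧ Set.MapsTo f B S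

/-- The dimension of a (semialgebraic) set: the largest `d` such that the set contains a
`d`-dimensional immersed piece. -/
def dim {E : Type*} [NormedAddCommGroup E] [NormedSpace ℝ E] (S : Set E) : ℕ :=
  sSup {d | ContainsImmersed d S}

/-- `S` is an embedded `C^r` submanifold of dimension `d` of the real normed space `E`: every point
of `S` has an open neighbourhood `W` in `E` such that `S ∩ W` is the image of a `C^r` map `f` from
an open subset `B` of `ℝ^d`, which has a left inverse `ρ` that is `C^r` on `W`. -/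
def IsSubmanifold {E : Type*} [NormedAddCommGroup E] [NormedSpace ℝ E] (r : WithTop ℕ∞) (d : ℕ)
    (S : Set E) : Prop :=
  ∀ p ∈ S, ∃ (W : Set E) (B : Set (Fin d → ℝ)) (f : (Fin d → ℝ) → E) (ρ : E → (Fin d → ℝ)),
    IsOpen W ∧ p ∈ W ∧ IsOpen B ∧ ContDiffOn ℝ r f B ∧ ContDiffOn ℝ r ρ W ∧ f '' B = S ∩ W ∧
      ∀ b ∈ B, ρ (f b) = b

attribute [local instance] Matrix.linftyOpNormedRing Matrix.linftyOpNormedAlgebra

variable {n : ℕ} (G H : SimpleGraph (Fin n))

theorem contains_zero : ContainsImmersed 0 (corrModel G H) := by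
  refine ⟨Set.univ, fun _ => 1, isOpen_univ, ⟨0, trivial⟩, contDiffOn_const, ?_, ?_⟩
  · intro b _ x y _
    exact Subsingleton.elim x y
  · intro b _
    exact H51.DM.one_mem G H

theorem le_of_contains {d : ℕ} (h : ContainsImmersed d (corrModel G H)) :
    d ≤ (G ⊓ H).edgeSet.ncard := by
  obtain ⟨B, f, hB, ⟨b0, hb0⟩, hf, hinj, hmaps⟩ := h
  have hfd : HasFDerivAt f (fderiv ℝ f b0) b0 :=
    ((hf.contDiffAt (hB.mem_nhds hb0)).differentiableAt (by simp)).hasFDerivAt
  have hi : Function.Injective ((H51.DM.pj (G ⊓ H)).comp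
      (fderiv ℝ f b0 : (Fin d → ℝ) →ₗ[ℝ] Matrix (Fin n) (Fin n) ℝ)) := by
    rw [injective_iff_map_eq_zero]
    intro v hv
    have h1 := H51.DM.injective_param G H hB hb0 hfd (fun b hb => hmaps hb) v hv
    apply hinj b0 hb0
    exact h1.trans (map_zero (fderiv ℝ f b0)).symm
  have := LinearMap.finrank_le_finrank_of_injective hi
  rwa [Module.finrank_fin_fun, H51.DM.finrank_Sp] at this

theorem bdd : BddAbove {d | ContainsImmersed d (corrModel G H)} :=
  ⟨_, fun _ hd => le_of_contains G H hd⟩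

/-- the global parametrisation of a model of maximal dimension. -/
theorem chart (hdim : dim (corrModel G H) = (G.edgeSet ∩ H.edgeSet).ncard) :
    ∃ (B : Set (Fin (G.edgeSet ∩ H.edgeSet).ncard → ℝ))
      (f : (Fin (G.edgeSet ∩ H.edgeSet).ncard → ℝ) → Matrix (Fin n) (Fin n) ℝ)
      (ρ : Matrix (Fin n) (Fin n) ℝ →ₗ[ℝ] (Fin (G.edgeSet ∩ H.edgeSet).ncard → ℝ)),
      IsOpen B ∧ Convex ℝ B ∧ ContDiffOn ℝ ω f B ∧ f '' B = corrModel G H ∧
        ∀ b ∈ B, ρ (f b) = b := by
  have he : (G.edgeSet ∩ H.edgeSet).ncard = (G ⊓ H).edgeSet.ncard := by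
    rw [SimpleGraph.edgeSet_inf]
  have hm : ContainsImmersed (dim (corrModel G H)) (corrModel G H) :=
    Nat.sSup_mem ⟨0, contains_zero G H⟩ (bdd G H)
  rw [hdim] at hm
  obtain ⟨B, f, hB, ⟨b0, hb0⟩, hf, hinj, hmaps⟩ := hm
  have hfd : HasStrictFDerivAt f (fderiv ℝ f b0) b0 :=
    (hf.contDiffAt (hB.mem_nhds hb0)).hasStrictFDerivAt (by simp)
  exact H51.DM.global_chart G H
    (H51.DM.all_of_dim G H he hB hb0 hfd (hinj b0 hb0) fun b hb => hmaps hb) he

/-- **Q1.** For all graphs `G, H` on `n` vertices: if `dim M₁(G,H) = |E_G ∩ E_H|`, then `M₁(G,H)`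
is a real-analytic (hence smooth) embedded submanifold of dimension `|E_G ∩ E_H|`; it is even the
image of a convex open subset of `ℝ^{|E_G ∩ E_H|}` under an analytic map with a linear left
inverse. Conversely, if `M₁(G,H)` is a `C^r` embedded submanifold of some dimension, `1 ≤ r`, then
its dimension is `|E_G ∩ E_H|`. -/
theorem result (n : ℕ) (G H : SimpleGraph (Fin n)) :
    (dim (corrModel G H) = (G.edgeSet ∩ H.edgeSet).ncard →
      IsSubmanifold ω (G.edgeSet ∩ H.edgeSet).ncard (corrModel G H) ∧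
      ∃ (B : Set (Fin (G.edgeSet ∩ H.edgeSet).ncard → ℝ))
        (f : (Fin (G.edgeSet ∩ H.edgeSet).ncard → ℝ) → Matrix (Fin n) (Fin n) ℝ)
        (ρ : Matrix (Fin n) (Fin n) ℝ →ₗ[ℝ] (Fin (G.edgeSet ∩ H.edgeSet).ncard → ℝ)),
        IsOpen B ∧ Convex ℝ B ∧ ContDiffOn ℝ ω f B ∧ f '' B = corrModel G H ∧
          ∀ b ∈ B, ρ (f b) = b) ∧
    (∀ (r : WithTop ℕ∞) (d : ℕ), 1 ≤ r → IsSubmanifold r d (corrModel G H) →
      dim (corrModel G H) = (G.edgeSet ∩ H.edgeSet).ncard) := by
  constructor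
  · intro hdim
    obtain ⟨B, f, ρ, hB, hconv, hf, himg, hinv⟩ := chart G H hdim
    refine ⟨?_, B, f, ρ, hB, hconv, hf, himg, hinv⟩
    intro p hp
    refine ⟨Set.univ, B, f, ρ, isOpen_univ, trivial, hB, hf, ?_, ?_, hinv⟩
    · exact (LinearMap.toContinuousLinearMap ρ).contDiff.contDiffOn
    · rw [himg, Set.inter_univ]
  · intro r d hr hsm
    obtain ⟨W, B, f, ρ, h⟩ := hsm 1 (H51.DM.one_mem G H)
    have hall := H51.DM.all_of_chart G H hr (d := d) ⟨W, B, f, ρ, h⟩
    have he : (G.edgeSet ∩ H.edgeSet).ncard = (G ⊓ H).edgeSet.ncard := by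
      rw [SimpleGraph.edgeSet_inf]
    obtain ⟨B, f, ρ, hB, hconv, hf, himg, hinv⟩ := H51.DM.global_chart G H hall he
    apply le_antisymm
    · rw [he]
      exact csSup_le ⟨0, contains_zero G H⟩ fun d hd => le_of_contains G H hd
    · apply le_csSup (bdd G H)
      obtain ⟨b0, hb0, -⟩ : (1 : Matrix (Fin n) (Fin n) ℝ) ∈ f '' B := by
        rw [himg]; exact H51.DM.one_mem G H
      refine ⟨B, f, hB, ⟨b0, hb0⟩, hf.of_le le_top, ?_, ?_⟩
      · intro b hb
        have hfd : HasFDerivAt f (fderiv ℝ f b) b :=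
          ((hf.contDiffAt (hB.mem_nhds hb)).differentiableAt (by simp)).hasFDerivAt
        have h1 : HasFDerivAt (fun x => ρ (f x))
            ((LinearMap.toContinuousLinearMap ρ).comp (fderiv ℝ f b)) b :=
          (LinearMap.toContinuousLinearMap ρ).hasFDerivAt.comp b hfd
        have h2 : HasFDerivAt (fun x => ρ (f x)) (ContinuousLinearMap.id ℝ _) b :=
          (hasFDerivAt_id b).congr_of_eventuallyEq (by
            filter_upwards [hB.mem_nhds hb] with x hx using hinv x hx)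
        have h3 := h1.unique h2
        intro x y hxy
        have hx := congrArg (fun L : (Fin _ → ℝ) →L[ℝ] (Fin _ → ℝ) => L x) h3
        have hy := congrArg (fun L : (Fin _ → ℝ) →L[ℝ] (Fin _ → ℝ) => L y) h3
        have hx' : ρ (fderiv ℝ f b x) = x := hx
        have hy' : ρ (fderiv ℝ f b y) = y := hy
        exact hx'.symm.trans ((congrArg ρ hxy).trans hy')
      · intro b hb
        have : f b ∈ H51.DM.corrModel G H := by rw [← himg]; exact ⟨b, hb, rfl⟩
        exact this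

end

end Pool.Agent.Results.MP_0a1f67_ag.MaxDimSmooth
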