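import Pool.Agent.H51.DM.G

set_option linter.all false

/-!
# Smooth double Markovian correlation models have irreducible Zariski closure (Q2)
-/

namespace Pool.Agent.Results.MP_0a1f67_ag.SmoothIrreducible

open Matrix

noncomputable section

/-- The double Markovian correlation model `M₁(G,H)`: the positive definite matrices `Σ` with unit
diagonal such that `(Σ⁻¹)ᵢⱼ = 0` for all non-edges `ij` of `G` and `Σᵢⱼ = 0` for all non-edges `ij`
of `H`. -/
def corrModel {n : ℕ} (G H : SimpleGraph (Fin n)) : Set (Matrix (Fin n) (Fin n) ℝ) :=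
  {S | S.PosDef ∧ (∀ i j, i ≠ j → ¬ G.Adj i j → S⁻¹ i j = 0) ∧
    (∀ i j, i ≠ j → ¬ H.Adj i j → S i j = 0) ∧ ∀ i, S i i = 1}

/-- `S` is an embedded `C^r` submanifold of the real normed space `E`: every point of `S` has an
open neighbourhood `W` in `E` such that `S ∩ W` is the image of a `C^r` map `f` from an open subset
`B` of some `ℝ^d`, which has a left inverse `ρ` that is `C^r` on `W`. -/
def IsSubmanifold {E : Type*} [NormedAddCommGroup E] [NormedSpace ℝ E] (r : WithTop ℕ∞)
    (S : Set E) : Prop :=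
  ∀ p ∈ S, ∃ (d : ℕ) (W : Set E) (B : Set (Fin d → ℝ)) (f : (Fin d → ℝ) → E)
    (ρ : E → (Fin d → ℝ)),
    IsOpen W ∧ p ∈ W ∧ IsOpen B ∧ ContDiffOn ℝ r f B ∧ ContDiffOn ℝ r ρ W ∧ f '' B = S ∩ W ∧
      ∀ b ∈ B, ρ (f b) = b

/-- the index set of the coordinates `σ_ij`, `i ≤ j`, on the space of symmetric matrices. -/
abbrev Idx (n : ℕ) : Type := {p : Fin n × Fin n // p.1 ≤ p.2}

/-- the coordinates `σ_ij`, `i ≤ j`, of a matrix, as elements of `K`. -/
def coords {n : ℕ} (K : Type*) [NormedField K] [NormedAlgebra ℝ K]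
    (S : Matrix (Fin n) (Fin n) ℝ) : Idx n → K :=
  fun p => algebraMap ℝ K (S p.1.1 p.1.2)

/-- the ideal of all polynomials over `K` in the coordinates `σ_ij`, `i ≤ j`, that vanish on `V`:
the ideal of the Zariski closure of `V` in the affine space of symmetric matrices. -/
def zariskiIdeal {n : ℕ} (K : Type*) [NormedField K] [NormedAlgebra ℝ K]
    (V : Set (Matrix (Fin n) (Fin n) ℝ)) : Ideal (MvPolynomial (Idx n) K) :=
  MvPolynomial.vanishingIdeal K (coords K '' V)

attribute [local instance] Matrix.linftyOpNormedRing Matrix.linftyOpNormedAlgebra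

/-- **Q2.** For all graphs `G, H` on `n` vertices: if the double Markovian correlation model
`M₁(G,H)` is a smooth embedded submanifold (of some class `C^r`, `1 ≤ r`; the dimension is not
assumed to be the same everywhere), then its Zariski closure is irreducible, both over `ℝ` and
over `ℂ`. -/
theorem result (n : ℕ) (G H : SimpleGraph (Fin n)) (r : WithTop ℕ∞) (hr : 1 ≤ r)
    (hsm : IsSubmanifold r (corrModel G H)) :
    (zariskiIdeal ℝ (corrModel G H)).IsPrime ∧ (zariskiIdeal ℂ (corrModel G H)).IsPrime := by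
  obtain ⟨d, W, B, f, ρ, h⟩ := hsm 1 (H51.DM.one_mem G H)
  have hall := H51.DM.all_of_chart G H hr (d := d) ⟨W, B, f, ρ, h⟩
  exact ⟨H51.DM.prime_of_all G H ℝ hall, H51.DM.prime_of_all G H ℂ hall⟩

end

end Pool.Agent.Results.MP_0a1f67_ag.SmoothIrreducible
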